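import Mathlib
import Pool.Agent.Lib_helper15.C10.Defs

/-!
# Lacunary analytic polynomials (module C1)
-/

set_option autoImplicit false

universe u

namespace Pool.Agent.C10

open Filter Set
open scoped Topology

namespace C1

lemma zc_apply (z : Circle) : zc z = (z : ℂ) := rfl

lemma hL_cons_apply (n : ℕ) (l : List ℕ) (z : Circle) :
    hL (n :: l) z = hL l z * (1 + (((z : ℂ) ^ n).re : ℂ)) := by
  have h1 : hL (n :: l) z = hL l z * (1 + (1 / 2 : ℂ) * ((z : ℂ) ^ n + star ((z : ℂ) ^ n))) := rfl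
  rw [h1]
  congr 2
  have h2 : (z : ℂ) ^ n + star ((z : ℂ) ^ n) = ((2 * ((z : ℂ) ^ n).re : ℝ) : ℂ) := by
    rw [← Complex.add_conj]
    rfl
  rw [h2]
  push_cast
  ring

lemma abs_re_le_one (n : ℕ) (z : Circle) : |((z : ℂ) ^ n).re| ≤ 1 := by
  have h := Complex.abs_re_le_norm ((z : ℂ) ^ n)
  rwa [norm_pow, Circle.norm_coe, one_pow] at h

lemma hL_real : ∀ (l : List ℕ) (z : Circle), (hL l z).im = 0 ∧ 0 ≤ (hL l z).re
  | [], z => by simp [hL]
  | n :: l, z => by
    obtain ⟨h1, h2⟩ := hL_real l z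
    rw [hL_cons_apply]
    have h3 : (1 + (((z : ℂ) ^ n).re : ℂ)) = ((1 + ((z : ℂ) ^ n).re : ℝ) : ℂ) := by push_cast; ring
    rw [h3]
    have h4 := abs_le.1 (abs_re_le_one n z)
    constructor
    · rw [Complex.mul_im, h1]
      simp
    · rw [Complex.mul_re, h1]
      simp only [zero_mul, sub_zero, Complex.ofReal_re]
      exact mul_nonneg h2 (by linarith [h4.1])

lemma pL_cons_apply (n : ℕ) (l : List ℕ) (z : Circle) :
    pL (n :: l) z = pL l z + (z : ℂ) ^ n * hL l z := rfl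

lemma pL_re : ∀ (l : List ℕ) (z : Circle), (pL l z).re = (hL l z).re
  | [], z => by simp [hL, pL]
  | n :: l, z => by
    have h0 := hL_real l z
    rw [hL_cons_apply, pL_cons_apply, Complex.add_re, pL_re l z, Complex.mul_re, h0.1,
      Complex.mul_re, h0.1]
    have h3 : (1 + (((z : ℂ) ^ n).re : ℂ)) = ((1 + ((z : ℂ) ^ n).re : ℝ) : ℂ) := by push_cast; ring
    rw [h3, Complex.ofReal_re]
    ring

/-- `Q_l` -/
noncomputable def Q : List ℕ → Polynomial ℂ
  | [] => 1
  | n :: l => Q l * (Polynomial.X ^ n + Polynomial.C (1 / 2) * (Polynomial.X ^ (2 * n) + 1))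

/-- `P_l` -/
noncomputable def P : List ℕ → Polynomial ℂ
  | [] => 1
  | n :: l => P l + Polynomial.X ^ (n - l.sum) * Q l

lemma Q_eval : ∀ (l : List ℕ) (z : Circle), (Q l).eval (z : ℂ) = (z : ℂ) ^ l.sum * hL l z
  | [], z => by simp [Q, hL]
  | n :: l, z => by
    rw [Q, Polynomial.eval_mul, Q_eval l z]
    have h1 : hL (n :: l) z = hL l z * (1 + (1 / 2 : ℂ) * ((z : ℂ) ^ n + star ((z : ℂ) ^ n))) := rfl
    rw [h1]
    simp only [Polynomial.eval_add, Polynomial.eval_mul, Polynomial.eval_pow, Polynomial.eval_X,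
      Polynomial.eval_C, Polynomial.eval_one, List.sum_cons]
    have h2 : (z : ℂ) ^ n * star ((z : ℂ) ^ n) = 1 := by
      rw [Complex.star_def, Complex.mul_conj, Complex.normSq_eq_norm_sq, norm_pow,
        Circle.norm_coe]
      simp
    rw [pow_add, two_mul, pow_add]
    linear_combination (-(1 / 2 : ℂ) * (z : ℂ) ^ l.sum * hL l z) * h2

lemma P_eval : ∀ (l : List ℕ), Lac l → ∀ z : Circle, (P l).eval (z : ℂ) = pL l z
  | [], _, z => by simp [P, pL]
  | n :: l, hl, z => by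
    rw [P, Polynomial.eval_add, P_eval l hl.2 z, Polynomial.eval_mul, Q_eval, pL_cons_apply,
      Polynomial.eval_pow, Polynomial.eval_X, ← mul_assoc, ← pow_add, Nat.sub_add_cancel hl.1.le]

lemma aeval_zc_apply (p : Polynomial ℂ) (z : Circle) :
    (Polynomial.aeval zc p) z = p.eval (z : ℂ) := by
  have h := Polynomial.aeval_algHom_apply (ContinuousMap.evalAlgHom ℂ ℂ z) zc p
  have h2 : (ContinuousMap.evalAlgHom ℂ ℂ z) (Polynomial.aeval zc p)
      = (Polynomial.aeval zc p) z := rfl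
  have h3 : (ContinuousMap.evalAlgHom ℂ ℂ z) zc = (z : ℂ) := rfl
  rw [h2, h3] at h
  rw [← h, Polynomial.coe_aeval_eq_eval]

lemma re_nonneg (p : Polynomial ℂ) (h : ∀ z : Circle, 0 ≤ (p.eval (z : ℂ)).re) :
    ∀ z : ℂ, ‖z‖ ≤ 1 → 0 ≤ (p.eval z).re := by
  intro z hz
  have hd : DiffContOnCl ℂ (fun w : ℂ => Complex.exp (-(p.eval w))) (Metric.ball (0 : ℂ) 1) :=
    (Complex.differentiable_exp.comp p.differentiable.neg).diffContOnCl
  have hC : ∀ w ∈ frontier (Metric.ball (0 : ℂ) 1), ‖Complex.exp (-(p.eval w))‖ ≤ 1 := by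
    intro w hw
    rw [frontier_ball (0 : ℂ) one_ne_zero, mem_sphere_zero_iff_norm] at hw
    have h1 := h ⟨w, mem_sphere_zero_iff_norm.2 hw⟩
    rw [Complex.norm_exp, Complex.neg_re, Real.exp_le_one_iff]
    simpa using h1
  have h2 := Complex.norm_le_of_forall_mem_frontier_norm_le Metric.isBounded_ball hd hC
    (z := z) (by
      rw [closure_ball (0 : ℂ) one_ne_zero, mem_closedBall_zero_iff]
      exact hz)
  rw [Complex.norm_exp, Complex.neg_re, Real.exp_le_one_iff] at h2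
  linarith

end C1

theorem modC1 : ModC1 := by
  intro l hl
  refine ⟨fun z => ⟨(C1.hL_real l z).1, (C1.hL_real l z).2, C1.pL_re l z⟩, C1.P l, ?_, ?_⟩
  · ext z
    rw [C1.aeval_zc_apply, C1.P_eval l hl]
  · apply C1.re_nonneg
    intro z
    rw [C1.P_eval l hl, C1.pL_re]
    exact (C1.hL_real l z).2

end Pool.Agent.C10
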