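import Mathlib
import Pool.Agent.Lib_helper15.C10.Defs3
import Pool.Agent.Lib_helper68.C10.C1

/-!
# Explicit polynomials for power bounded operators (module P1)
-/

set_option autoImplicit false

universe u

namespace Pool.Agent.C10

open Filter Set
open scoped Topology

namespace P1

lemma zc_mul_star : zc * star zc = 1 := by
  ext z
  change (z : ℂ) * star (z : ℂ) = 1
  rw [Complex.star_def, Complex.mul_conj, Complex.normSq_eq_norm_sq, Circle.norm_coe]
  simp

lemma zc_pow_mul_star (n : ℕ) : zc ^ n * star (zc ^ n) = 1 := by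
  rw [star_pow, ← mul_pow, zc_mul_star, one_pow]

lemma wval (c : ℝ) (l : List ℕ) (z : Circle) :
    wP c l z = (((1 - ‖uP c l z‖ ^ 2) / 2 : ℝ) : ℂ) := by
  have h : wP c l z = (1 / 2 : ℂ) * (1 - uP c l z * star (uP c l z)) := rfl
  rw [h, Complex.star_def, Complex.mul_conj, Complex.normSq_eq_norm_sq]
  push_cast
  ring

lemma uval (c : ℝ) (n : ℕ) (l : List ℕ) (z : Circle) :
    uP c (n :: l) z = uP c l z * (1 + (z : ℂ) ^ n * wP c l z) := rfl

lemma u_bounds (c : ℝ) (h0 : 0 < c) (h1 : c < 1) : ∀ (l : List ℕ) (z : Circle),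
    0 < ‖uP c l z‖ ∧ ‖uP c l z‖ < 1
  | [], z => by
    have h : uP c [] z = (c : ℂ) * 1 := rfl
    rw [h, mul_one, Complex.norm_real, Real.norm_eq_abs, abs_of_pos h0]
    exact ⟨h0, h1⟩
  | n :: l, z => by
    obtain ⟨ha, hb⟩ := u_bounds c h0 h1 l z
    rw [uval, norm_mul, wval]
    set t := ‖uP c l z‖ with ht
    have hw : 0 ≤ (1 - t ^ 2) / 2 := by nlinarith
    have hn : ‖(z : ℂ) ^ n * (((1 - t ^ 2) / 2 : ℝ) : ℂ)‖ = (1 - t ^ 2) / 2 := by
      rw [norm_mul, norm_pow, Circle.norm_coe, one_pow, one_mul, Complex.norm_real,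
        Real.norm_eq_abs, abs_of_nonneg hw]
    have hup : ‖1 + (z : ℂ) ^ n * (((1 - t ^ 2) / 2 : ℝ) : ℂ)‖ ≤ 1 + (1 - t ^ 2) / 2 := by
      have := norm_add_le (1 : ℂ) ((z : ℂ) ^ n * (((1 - t ^ 2) / 2 : ℝ) : ℂ))
      rwa [hn, norm_one] at this
    have hlow : 1 - (1 - t ^ 2) / 2 ≤ ‖1 + (z : ℂ) ^ n * (((1 - t ^ 2) / 2 : ℝ) : ℂ)‖ := by
      have := norm_sub_norm_le (1 : ℂ) (-((z : ℂ) ^ n * (((1 - t ^ 2) / 2 : ℝ) : ℂ)))
      rwa [norm_neg, hn, norm_one, sub_neg_eq_add] at this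
    constructor
    · apply mul_pos ha
      nlinarith
    · calc t * ‖1 + (z : ℂ) ^ n * (((1 - t ^ 2) / 2 : ℝ) : ℂ)‖
          ≤ t * (1 + (1 - t ^ 2) / 2) := mul_le_mul_of_nonneg_left hup ha.le
        _ < 1 := by
          have : 0 < (1 - t) ^ 2 * (t + 2) := by
            have : 0 < 1 - t := by linarith
            positivity
          nlinarith

lemma w_norm (c : ℝ) (h0 : 0 < c) (h1 : c < 1) (l : List ℕ) : ‖wP c l‖ ≤ 1 / 2 := by
  rw [ContinuousMap.norm_le _ (by norm_num)]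
  intro z
  obtain ⟨ha, hb⟩ := u_bounds c h0 h1 l z
  rw [wval, Complex.norm_real, Real.norm_eq_abs, abs_of_nonneg (by nlinarith)]
  nlinarith

lemma star_w (c : ℝ) (l : List ℕ) : star (wP c l) = wP c l := by
  have : wP c l = (1 / 2 : ℂ) • (1 - uP c l * star (uP c l)) := rfl
  rw [this, star_smul, star_sub, star_mul, star_star, star_one]
  congr 1
  simp

lemma aeval_C_half : (Polynomial.aeval zc (Polynomial.C (1 / 2 : ℂ)) : C(Circle, ℂ)) =
    (1 / 2 : ℂ) • 1 := by
  rw [Polynomial.aeval_C, Algebra.algebraMap_eq_smul_one]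

lemma polys (c : ℝ) : ∀ l : List ℕ, Lac2 l →
    Polynomial.aeval zc (PP c l).1 = uP c l ∧
      Polynomial.aeval zc (PP c l).2 = zc ^ dP l * star (uP c l)
  | [], _ => by
    constructor
    · change Polynomial.aeval zc (Polynomial.C (c : ℂ)) = (c : ℂ) • (1 : C(Circle, ℂ))
      rw [Polynomial.aeval_C, Algebra.algebraMap_eq_smul_one]
    · change Polynomial.aeval zc (Polynomial.C (c : ℂ)) =
        zc ^ 0 * star ((c : ℂ) • (1 : C(Circle, ℂ)))
      rw [Polynomial.aeval_C, Algebra.algebraMap_eq_smul_one, pow_zero, one_mul, star_smul,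
        star_one]
      congr 1
      simp
  | n :: l, hl => by
    obtain ⟨ih1, ih2⟩ := polys c l hl.2
    have hd : dP l ≤ n := hl.1
    have hu : uP c (n :: l) = uP c l * (1 + zc ^ n * wP c l) := rfl
    have hw : wP c l = (1 / 2 : ℂ) • (1 - uP c l * star (uP c l)) := rfl
    have hhalf : ∀ f : C(Circle, ℂ), (1 / 2 : ℂ) • f = ((1 / 2 : ℂ) • (1 : C(Circle, ℂ))) * f :=
      fun f => by rw [smul_mul_assoc, one_mul]
    have hzs : ∀ m : ℕ, zc ^ m * (star zc) ^ m = 1 := fun m => by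
      rw [← mul_pow, zc_mul_star, one_pow]
    constructor
    · change Polynomial.aeval zc ((PP c l).1 + Polynomial.X ^ (n - dP l) * (Polynomial.C (1 / 2) *
        (Polynomial.X ^ dP l * (PP c l).1 - (PP c l).1 ^ 2 * (PP c l).2))) = _
      simp only [map_add, map_mul, map_sub, map_pow, Polynomial.aeval_X, aeval_C_half, ih1, ih2]
      rw [hu, hw, hhalf (1 - uP c l * star (uP c l))]
      have e : zc ^ (n - dP l) * zc ^ dP l = zc ^ n := by
        rw [← pow_add, Nat.sub_add_cancel hd]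
      linear_combination (((1 / 2 : ℂ) • (1 : C(Circle, ℂ))) *
        (uP c l - uP c l ^ 2 * star (uP c l))) * e
    · change Polynomial.aeval zc (Polynomial.X ^ (n + dP l) * (PP c l).2 + Polynomial.C (1 / 2) *
        (Polynomial.X ^ dP l * (PP c l).2 - (PP c l).2 ^ 2 * (PP c l).1)) =
        zc ^ (n + 2 * dP l) * _
      simp only [map_add, map_mul, map_sub, map_pow, Polynomial.aeval_X, aeval_C_half, ih1, ih2]
      rw [hu, star_mul, star_add, star_one, star_mul, star_w, star_pow, hw,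
        hhalf (1 - uP c l * star (uP c l))]
      have e := hzs n
      linear_combination (-((1 / 2 : ℂ) • (1 : C(Circle, ℂ))) * zc ^ (2 * dP l) *
        (1 - uP c l * star (uP c l)) * star (uP c l)) * e

end P1

theorem modP1 : ModP1 := by
  intro c h0 h1 l
  refine ⟨P1.u_bounds c h0 h1 l, P1.w_norm c h0 h1 l, fun hl => ?_⟩
  obtain ⟨e1, e2⟩ := P1.polys c l hl
  refine ⟨e1, e2, ?_, ?_⟩
  · have hhalf : ∀ f : C(Circle, ℂ), (1 / 2 : ℂ) • f = ((1 / 2 : ℂ) • (1 : C(Circle, ℂ))) * f :=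
      fun f => by rw [smul_mul_assoc, one_mul]
    have hw : wP c l = (1 / 2 : ℂ) • (1 - uP c l * star (uP c l)) := rfl
    unfold QQ
    simp only [map_mul, map_sub, map_pow, Polynomial.aeval_X, P1.aeval_C_half, e1, e2]
    rw [hw, hhalf (1 - uP c l * star (uP c l))]
    ring
  · intro z hz
    have hd : DiffContOnCl ℂ (fun w : ℂ => (PP c l).1.eval w) (Metric.ball (0 : ℂ) 1) :=
      (PP c l).1.differentiable.diffContOnCl
    refine Complex.norm_le_of_forall_mem_frontier_norm_le Metric.isBounded_ball hd ?_ ?_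
    · intro w hw
      rw [frontier_ball (0 : ℂ) one_ne_zero, mem_sphere_zero_iff_norm] at hw
      have h2 := C1.aeval_zc_apply (PP c l).1 ⟨w, mem_sphere_zero_iff_norm.2 hw⟩
      rw [e1] at h2
      have h3 := (P1.u_bounds c h0 h1 l ⟨w, mem_sphere_zero_iff_norm.2 hw⟩).2
      rw [h2] at h3
      exact h3.le
    · rw [closure_ball (0 : ℂ) one_ne_zero, mem_closedBall_zero_iff]
      exact hz

end Pool.Agent.C10
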