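import Mathlib
import Pool.Agent.Lib_helper15.C10.Defs3

/-!
# One step of the polynomial scheme under a positive functional (module P3)
-/

set_option autoImplicit false

universe u

namespace Pool.Agent.C10

open Filter Set
open scoped Topology

namespace P3

lemma wval (c : ℝ) (l : List ℕ) (z : Circle) :
    wP c l z = (((1 - ‖uP c l z‖ ^ 2) / 2 : ℝ) : ℂ) := by
  have h : wP c l z = (1 / 2 : ℂ) * (1 - uP c l z * star (uP c l z)) := rfl
  rw [h, Complex.star_def, Complex.mul_conj, Complex.normSq_eq_norm_sq]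
  push_cast
  ring

lemma uval (c : ℝ) (n : ℕ) (l : List ℕ) (z : Circle) :
    uP c (n :: l) z = uP c l z * (1 + (z : ℂ) ^ n * wP c l z) := rfl

lemma mono {L : C(Circle, ℝ) →ₗ[ℝ] ℝ} (hL : PosR2 L) {f g : C(Circle, ℝ)} (h : f ≤ g) :
    L f ≤ L g := by
  have := hL.1 (g - f) (sub_nonneg.mpr h)
  rw [map_sub] at this
  linarith

lemma reC_zero : reC 0 = 0 := by
  ext z
  simp [reC]

lemma tend {L : C(Circle, ℝ) →ₗ[ℝ] ℝ} (hL : PosR2 L) (g : C(Circle, ℂ)) (k : ℕ)
    (hk : k = 0 → g = 0) :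
    Tendsto (fun n : ℕ => L (reC ((zc ^ n) ^ k * g))) atTop (𝓝 0) := by
  rcases Nat.eq_zero_or_pos k with h0 | h0
  · rw [hk h0]
    simp only [mul_zero, reC_zero, map_zero]
    exact tendsto_const_nhds
  · have h1 : Tendsto (fun n : ℕ => n * k) atTop atTop := tendsto_id.atTop_mul_const' h0
    have h2 := (hL.2 g).comp h1
    refine h2.congr fun n => ?_
    simp only [Function.comp_apply, pow_mul]

lemma nsq_cons (c : ℝ) (n : ℕ) (l : List ℕ) :
    nsq (uP c (n :: l)) = nsq (uP c l) +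
      (1 / 4 : ℝ) • (nsq (uP c l) * (1 - nsq (uP c l)) ^ 2) +
      reC (zc ^ n * ((2 : ℂ) • (uP c l * star (uP c l) * wP c l))) := by
  ext z
  have e1 : (nsq (uP c (n :: l))) z = ‖uP c l z * (1 + (z : ℂ) ^ n * wP c l z)‖ ^ 2 := rfl
  have e2 : (nsq (uP c l) + (1 / 4 : ℝ) • (nsq (uP c l) * (1 - nsq (uP c l)) ^ 2) +
      reC (zc ^ n * ((2 : ℂ) • (uP c l * star (uP c l) * wP c l))) : C(Circle, ℝ)) z =
      ‖uP c l z‖ ^ 2 + (1 / 4 : ℝ) * (‖uP c l z‖ ^ 2 * (1 - ‖uP c l z‖ ^ 2) ^ 2) +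
      ((z : ℂ) ^ n * (2 * (uP c l z * star (uP c l z) * wP c l z))).re := rfl
  rw [e1, e2, wval, norm_mul, mul_pow]
  set t := ‖uP c l z‖ with ht
  have e3 : uP c l z * star (uP c l z) = ((t ^ 2 : ℝ) : ℂ) := by
    rw [Complex.star_def, Complex.mul_conj, Complex.normSq_eq_norm_sq]
  rw [e3]
  have hz : ‖(z : ℂ) ^ n‖ = 1 := by rw [norm_pow, Circle.norm_coe, one_pow]
  set ζ := (z : ℂ) ^ n with hζ
  have h1 : ζ.re ^ 2 + ζ.im ^ 2 = 1 := by
    have := Complex.sq_norm ζ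
    rw [hz, Complex.normSq_apply] at this
    nlinarith
  have h5 : ∀ r : ℝ, ‖1 + ζ * (r : ℂ)‖ ^ 2 = (1 + ζ.re * r) ^ 2 + (ζ.im * r) ^ 2 := by
    intro r
    rw [← Complex.normSq_eq_norm_sq, Complex.normSq_apply]
    simp
    ring
  have h6 : ∀ a b : ℝ, (ζ * (2 * ((a : ℂ) * (b : ℂ)))).re = ζ.re * (2 * (a * b)) := by
    intro a b
    have : (2 * ((a : ℂ) * (b : ℂ))) = ((2 * (a * b) : ℝ) : ℂ) := by push_cast; ring
    rw [this, Complex.re_mul_ofReal]
  rw [h5, h6]
  have h2 : ζ.im ^ 2 = 1 - ζ.re ^ 2 := by linarith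
  linear_combination (t ^ 2 * ((1 - t ^ 2) / 2) ^ 2) * h2

end P3

open P3 in
theorem modP3 : ModP1 → ModP3 := by
  intro hP1 L hL c h0 h1 l ε hε
  obtain ⟨hu, hw, -⟩ := hP1 c h0 h1 l
  have hL1 : 0 ≤ L 1 := hL.1 1 (by rw [ContinuousMap.le_def]; intro z; simp)
  -- first part
  have part1 : ∀ᶠ n : ℕ in atTop,
      L (nsq (uP c l)) + (1 / 4) * L (nsq (uP c l) * (1 - nsq (uP c l)) ^ 2) - ε ≤
        L (nsq (uP c (n :: l))) := by
    have h2 := hL.2 ((2 : ℂ) • (uP c l * star (uP c l) * wP c l))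
    have h3 : ∀ᶠ n : ℕ in atTop, -ε < L (reC (zc ^ n *
        ((2 : ℂ) • (uP c l * star (uP c l) * wP c l)))) :=
      h2.eventually (lt_mem_nhds (by linarith))
    filter_upwards [h3] with n hn
    rw [nsq_cons, map_add, map_add, map_smul, smul_eq_mul]
    linarith
  -- third part
  have part3 : ∀ᶠ n : ℕ in atTop,
      ∀ l' ∈ l.tails, |L (reC (zc ^ n * (wP c l * uP c l * star (uP c l'))))| ≤ ε := by
    have : ∀ᶠ n : ℕ in atTop, ∀ l' ∈ l.tails.toFinset,
        |L (reC (zc ^ n * (wP c l * uP c l * star (uP c l'))))| ≤ ε := by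
      rw [Filter.eventually_all_finset]
      intro l' _
      have h2 := (hL.2 (wP c l * uP c l * star (uP c l'))).abs
      rw [abs_zero] at h2
      exact (h2.eventually (gt_mem_nhds hε)).mono fun n hn => hn.le
    filter_upwards [this] with n hn l' hl'
    exact hn l' (List.mem_toFinset.mpr hl')
  -- second part
  have part2 : ∀ᶠ n : ℕ in atTop, L (nlog (uP c (n :: l))) ≤ L (nlog (uP c l)) + ε := by
    obtain ⟨K, hK⟩ : ∃ K : ℕ, (1 / 2 : ℝ) ^ K * L 1 ≤ ε / 2 := by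
      have h2 : Tendsto (fun K : ℕ => (1 / 2 : ℝ) ^ K * L 1) atTop (𝓝 (0 * L 1)) :=
        (tendsto_pow_atTop_nhds_zero_of_lt_one (by norm_num) (by norm_num)).mul_const _
      rw [zero_mul] at h2
      exact ((h2.eventually (gt_mem_nhds (half_pos hε))).mono fun n hn => hn.le).exists
    set g : ℕ → C(Circle, ℂ) := fun j => ((-1 : ℂ) ^ (j + 1) / (j : ℂ)) • (wP c l) ^ j with hg
    set T : ℕ → C(Circle, ℝ) := fun n =>
      ∑ j ∈ Finset.range (K + 1), reC ((zc ^ n) ^ j * g j) with hT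
    have hTt : Tendsto (fun n => L (T n)) atTop (𝓝 0) := by
      simp only [hT, map_sum]
      rw [show (0 : ℝ) = ∑ j ∈ Finset.range (K + 1), (0 : ℝ) by simp]
      refine tendsto_finsetSum _ fun j _ => tend hL (g j) j ?_
      rintro rfl
      simp [hg]
    have h3 : ∀ᶠ n : ℕ in atTop, -(ε / 2) < L (T n) :=
      hTt.eventually (lt_mem_nhds (by linarith))
    filter_upwards [h3] with n hn
    have hpt : nlog (uP c (n :: l)) ≤ nlog (uP c l) - T n + ((1 / 2 : ℝ) ^ K) • 1 := by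
      rw [ContinuousMap.le_def]
      intro z
      have hne : ∀ z, uP c l z ≠ 0 := fun z => norm_pos_iff.mp (hu z).1
      have hne' : ∀ z, uP c (n :: l) z ≠ 0 := fun z =>
        norm_pos_iff.mp ((hP1 c h0 h1 (n :: l)).1 z).1
      have e1 : nlog (uP c (n :: l)) z = - Real.log ‖uP c (n :: l) z‖ := by
        rw [nlog, dif_pos hne']; rfl
      have e2 : nlog (uP c l) z = - Real.log ‖uP c l z‖ := by
        rw [nlog, dif_pos hne]; rfl
      have e3 : T n z = (Complex.logTaylor (K + 1) ((z : ℂ) ^ n * wP c l z)).re := by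
        simp only [hT, Complex.logTaylor, ContinuousMap.coe_sum, Finset.sum_apply,
          Complex.re_sum]
        refine Finset.sum_congr rfl fun j _ => ?_
        change (((z : ℂ) ^ n) ^ j * (((-1 : ℂ) ^ (j + 1) / (j : ℂ)) * (wP c l z) ^ j)).re = _
        congr 1
        rw [mul_pow]
        ring
      set x := (z : ℂ) ^ n * wP c l z with hx
      have hxn : ‖x‖ ≤ 1 / 2 := by
        rw [hx, norm_mul, norm_pow, Circle.norm_coe, one_pow, one_mul]
        exact (ContinuousMap.norm_coe_le_norm _ z).trans hw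
      have h4 := Complex.norm_log_sub_logTaylor_le K (z := x) (by linarith)
      have h5 : ‖x‖ ^ (K + 1) * (1 - ‖x‖)⁻¹ / (K + 1) ≤ (1 / 2 : ℝ) ^ K := by
        have h6 : ‖x‖ ^ (K + 1) ≤ (1 / 2 : ℝ) ^ (K + 1) :=
          pow_le_pow_left₀ (norm_nonneg _) hxn _
        have h7 : (1 - ‖x‖)⁻¹ ≤ 2 := by
          rw [inv_le_comm₀ (by linarith) (by norm_num)]
          linarith
        have h8 : ‖x‖ ^ (K + 1) * (1 - ‖x‖)⁻¹ ≤ (1 / 2 : ℝ) ^ (K + 1) * 2 :=
          mul_le_mul h6 h7 (inv_nonneg.mpr (by linarith)) (by positivity)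
        have h9 : ‖x‖ ^ (K + 1) * (1 - ‖x‖)⁻¹ / (K + 1) ≤ ‖x‖ ^ (K + 1) * (1 - ‖x‖)⁻¹ := by
          apply div_le_self
          · apply mul_nonneg (by positivity) (inv_nonneg.mpr (by linarith))
          · have : (0 : ℝ) ≤ K := Nat.cast_nonneg K
            linarith
        calc _ ≤ ‖x‖ ^ (K + 1) * (1 - ‖x‖)⁻¹ := h9
          _ ≤ _ := h8
          _ = _ := by rw [pow_succ]; ring
      have h10 : (Complex.logTaylor (K + 1) x).re - Real.log ‖1 + x‖ ≤ (1 / 2 : ℝ) ^ K := by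
        rw [← Complex.log_re, ← Complex.sub_re]
        refine (Complex.re_le_norm _).trans ?_
        rw [norm_sub_rev]
        exact h4.trans h5
      have e4 : Real.log ‖uP c (n :: l) z‖ = Real.log ‖uP c l z‖ + Real.log ‖1 + x‖ := by
        have e5 : uP c (n :: l) z = uP c l z * (1 + x) := rfl
        have h11 : 1 + x ≠ 0 := by
          intro h
          exact hne' z (by rw [e5, h, mul_zero])
        rw [e5, norm_mul, Real.log_mul (norm_ne_zero_iff.mpr (hne z)) (norm_ne_zero_iff.mpr h11)]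
      have e6 : (nlog (uP c l) - T n + ((1 / 2 : ℝ) ^ K) • (1 : C(Circle, ℝ))) z =
          nlog (uP c l) z - T n z + (1 / 2 : ℝ) ^ K * 1 := rfl
      rw [e6, e1, e2, e3, e4]
      linarith
    have h12 := mono hL hpt
    rw [map_add, map_sub, map_smul, smul_eq_mul] at h12
    linarith
  filter_upwards [part1, part2, part3] with n a b d
  exact ⟨a, b, d⟩

end Pool.Agent.C10
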